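import Mathlib
import Pool.Agent.H55.PWList

/-!
# Classification of the two-element unavoidable sets of words with holes

The set `{a ◇^{m_1} a ... ◇^{m_k} a, b ◇^{n_1} b ... ◇^{n_l} b}` is unavoidable if and only if,
up to exchanging the two words, `k = 0`, or the numbers `m_i + 1`, `n_j + 1` are, up to a common
factor, in an explicit list (`Special1`, `Special2`, `Special3`).
-/

namespace Pool.Agent.Results.MP_24bad9_co.TwoElementUnavoidable

open H55PW

/-- The alphabet `{a, b}`. -/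
inductive Letter
  | a
  | b

/-- Words over `{a, b}` together with the hole, which is `none`. -/
abbrev HWord := List (Option Letter)

/-- Two words with holes are compatible: same length, and equal entries at each index where
neither entry is a hole. -/
def Compatible (u v : HWord) : Prop :=
  u.length = v.length ∧
    ∀ (i : ℕ) (x y : Letter), u[i]? = some (some x) → v[i]? = some (some y) → x = y

/-- The factor `w(i+1) w(i+2) ... w(i+r)` of the two-sided infinite word `w`. -/
def factor (w : ℤ → Letter) (i : ℤ) (r : ℕ) : HWord :=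
  (List.range r).map (fun j : ℕ => some (w (i + 1 + j)))

/-- `X` is unavoidable: every two-sided infinite word has a factor compatible with an element of
`X`. -/
def Unavoidable (X : Set HWord) : Prop :=
  ∀ w : ℤ → Letter, ∃ u ∈ X, ∃ (i : ℤ) (r : ℕ), Compatible (factor w i r) u

/-- `gapWord c [m_1, ..., m_k] = c ◇^{m_1} c ◇^{m_2} c ... ◇^{m_k} c`. -/
def gapWord (c : Letter) : List ℕ → HWord
  | [] => [some c]
  | m :: ms => some c :: (List.replicate m none ++ gapWord c ms)

/-- The set `X_{m|n}`. -/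
def X (m n : List ℕ) : Set HWord := {gapWord Letter.a m, gapWord Letter.b n}

/-- The case `k = l = 1`. -/
def Special1 (M N : ℕ) : Prop := (M + N) % 2 = 1

/-- The case `k = 1`, `l = 2`. -/
def Special2 (M N₁ N₂ : ℕ) : Prop :=
  (N₁ % 2 = 1 ∧ N₂ % 2 = 1 ∧ (M + N₁ = N₂ ∨ M + N₂ = N₁)) ∨
  (N₁ % 2 = 1 ∧ N₂ % 2 = 0 ∧ M = 2 * N₁ + N₂) ∨
  (N₁ % 2 = 0 ∧ N₂ % 2 = 1 ∧ M = N₁ + 2 * N₂) ∨
  (N₁ = M + 1 ∧ N₂ + 1 = M) ∨ (N₁ + 1 = M ∧ N₂ = M + 1) ∨
  (M = 7 ∧ N₁ = 2 ∧ N₂ = 4) ∨ (M = 7 ∧ N₁ = 4 ∧ N₂ = 2)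

/-- The case `k = 1`, `l = 3`. -/
def Special3 (M N₁ N₂ N₃ : ℕ) : Prop :=
  M % 2 = 0 ∧ 4 ≤ M ∧ N₂ = 1 ∧ ((N₁ + 2 = M ∧ N₃ = M + 1) ∨ (N₁ = M + 1 ∧ N₃ + 2 = M))

/-- `k = 0`, or `k = 1` and the numbers `m_1 + 1; n_1 + 1, ..., n_l + 1` are a common factor `g`
times one of the special tuples (with `1 ≤ l ≤ 3`). -/
def Listed (m n : List ℕ) : Prop :=
  m = [] ∨ ∃ g M : ℕ, m.map (· + 1) = [g * M] ∧
    ((∃ N, n.map (· + 1) = [g * N] ∧ Special1 M N) ∨
     (∃ N₁ N₂, n.map (· + 1) = [g * N₁, g * N₂] ∧ Special2 M N₁ N₂) ∨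
     (∃ N₁ N₂ N₃, n.map (· + 1) = [g * N₁, g * N₂, g * N₃] ∧ Special3 M N₁ N₂ N₃))

/-! ### from words to colourings of `ℤ` -/

theorem factor_succ (w : ℤ → Letter) (i : ℤ) (r : ℕ) :
    factor w i (r + 1) = some (w (i + 1)) :: factor w (i + 1) r := by
  unfold factor
  rw [List.range_succ_eq_map, List.map_cons, List.map_map]
  congr 1
  · simp
  · apply List.map_congr_left
    intro j _
    simp only [Function.comp]
    congr 2
    push_cast
    ring

theorem compatible_nil : Compatible [] [] := ⟨rfl, fun i x y h => by simp at h⟩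

theorem compatible_cons_some {x y : Letter} {u v : HWord} :
    Compatible (some x :: u) (some y :: v) ↔ x = y ∧ Compatible u v := by
  constructor
  · rintro ⟨h1, h2⟩
    refine ⟨h2 0 x y (by simp) (by simp), by simpa using h1, ?_⟩
    intro i x' y' hx hy
    exact h2 (i + 1) x' y' (by simpa using hx) (by simpa using hy)
  · rintro ⟨rfl, h1, h2⟩
    refine ⟨by simpa using h1, ?_⟩
    intro i x' y' hx hy
    cases i with
    | zero => simp at hx hy; rw [← hx, ← hy]
    | succ i => exact h2 i x' y' (by simpa using hx) (by simpa using hy)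

theorem compatible_cons_none {x : Letter} {u v : HWord} :
    Compatible (some x :: u) (none :: v) ↔ Compatible u v := by
  constructor
  · rintro ⟨h1, h2⟩
    refine ⟨by simpa using h1, ?_⟩
    intro i x' y' hx hy
    exact h2 (i + 1) x' y' (by simpa using hx) (by simpa using hy)
  · rintro ⟨h1, h2⟩
    refine ⟨by simpa using h1, ?_⟩
    intro i x' y' hx hy
    cases i with
    | zero => simp at hy
    | succ i => exact h2 i x' y' (by simpa using hx) (by simpa using hy)

theorem ex_none (w : ℤ → Letter) (i : ℤ) (v : HWord) :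
    (∃ r, Compatible (factor w i r) (none :: v)) ↔ ∃ r, Compatible (factor w (i + 1) r) v := by
  constructor
  · rintro ⟨r, h⟩
    cases r with
    | zero => exact absurd h.1 (by simp [factor])
    | succ r =>
      rw [factor_succ, compatible_cons_none] at h
      exact ⟨r, h⟩
  · rintro ⟨r, h⟩
    exact ⟨r + 1, by rw [factor_succ, compatible_cons_none]; exact h⟩

theorem ex_some (w : ℤ → Letter) (i : ℤ) (c : Letter) (v : HWord) :
    (∃ r, Compatible (factor w i r) (some c :: v)) ↔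
      w (i + 1) = c ∧ ∃ r, Compatible (factor w (i + 1) r) v := by
  constructor
  · rintro ⟨r, h⟩
    cases r with
    | zero => exact absurd h.1 (by simp [factor])
    | succ r =>
      rw [factor_succ, compatible_cons_some] at h
      exact ⟨h.1, r, h.2⟩
  · rintro ⟨h0, r, h⟩
    exact ⟨r + 1, by rw [factor_succ, compatible_cons_some]; exact ⟨h0, h⟩⟩

theorem ex_holes (w : ℤ → Letter) (v : HWord) : ∀ (m : ℕ) (i : ℤ),
    (∃ r, Compatible (factor w i r) (List.replicate m none ++ v)) ↔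
      ∃ r, Compatible (factor w (i + m) r) v := by
  intro m
  induction m with
  | zero => intro i; simp
  | succ m ih =>
    intro i
    rw [List.replicate_succ, List.cons_append, ex_none, ih]
    rw [show i + 1 + (m : ℤ) = i + ((m + 1 : ℕ) : ℤ) by push_cast; ring]

theorem ex_gapWord (w : ℤ → Letter) (c : Letter) : ∀ (m : List ℕ) (i : ℤ),
    (∃ r, Compatible (factor w i r) (gapWord c m)) ↔ Occ (fun z => w z = c) (i + 1) m := by
  intro m
  induction m with
  | nil =>
    intro i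
    unfold gapWord Occ
    rw [ex_some]
    exact ⟨fun h => h.1, fun h => ⟨h, 0, by simpa [factor] using compatible_nil⟩⟩
  | cons d ds ih =>
    intro i
    unfold gapWord Occ
    rw [ex_some, ex_holes, ih]
    rw [show i + 1 + (d : ℤ) + 1 = i + 1 + ((d : ℤ) + 1) by ring]

theorem not_a {x : Letter} : x ≠ Letter.a ↔ x = Letter.b := by
  cases x <;> simp

theorem unavoidable_iff (m n : List ℕ) : Unavoidable (X m n) ↔ UnavL m n := by
  classical
  have key : ∀ w : ℤ → Letter, (∃ u ∈ X m n, ∃ (i : ℤ) (r : ℕ), Compatible (factor w i r) u) ↔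
      (∃ x, Occ (fun z => w z = Letter.a) x m) ∨ (∃ x, Occ (fun z => w z = Letter.b) x n) := by
    intro w
    constructor
    · rintro ⟨u, hu, i, r, h⟩
      rcases hu with rfl | hu
      · exact Or.inl ⟨i + 1, (ex_gapWord w _ m i).mp ⟨r, h⟩⟩
      · rw [Set.mem_singleton_iff] at hu
        subst hu
        exact Or.inr ⟨i + 1, (ex_gapWord w _ n i).mp ⟨r, h⟩⟩
    · rintro (⟨x, h⟩ | ⟨x, h⟩)
      · obtain ⟨r, hr⟩ := (ex_gapWord w _ m (x - 1)).mpr (by rwa [sub_add_cancel])
        exact ⟨_, Or.inl rfl, x - 1, r, hr⟩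
      · obtain ⟨r, hr⟩ := (ex_gapWord w _ n (x - 1)).mpr (by rwa [sub_add_cancel])
        exact ⟨_, Or.inr rfl, x - 1, r, hr⟩
  constructor
  · intro h P
    have := (key (fun z => if P z then Letter.a else Letter.b)).mp (h _)
    have e1 : (fun z => (if P z then Letter.a else Letter.b) = Letter.a) = P := by
      funext z
      by_cases hz : P z <;> simp [hz]
    have e2 : (fun z => (if P z then Letter.a else Letter.b) = Letter.b) = fun z => ¬ P z := by
      funext z
      by_cases hz : P z <;> simp [hz]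
    rw [e1, e2] at this
    exact this
  · intro h w
    rw [key]
    have := h (fun z => w z = Letter.a)
    have e2 : (fun z => ¬ w z = Letter.a) = fun z => w z = Letter.b := by
      funext z
      exact propext not_a
    rw [e2] at this
    exact this

/-! ### the list -/

theorem tri_iff_nat (a b c : ℕ) : Tri ((a : ℤ) + 1) ((b : ℤ) + 1) ((c : ℤ) + 1) ↔
    ∃ g M N₁ N₂ : ℕ, a + 1 = g * M ∧ b + 1 = g * N₁ ∧ c + 1 = g * N₂ ∧ Special2 M N₁ N₂ := by
  constructor
  · rintro ⟨g, M, N, N', hg, e0, e1, e2, h⟩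
    have hM : 0 ≤ M := by
      by_contra hcon; push Not at hcon; nlinarith
    have hN : 0 ≤ N := by
      by_contra hcon; push Not at hcon; nlinarith
    have hN' : 0 ≤ N' := by
      by_contra hcon; push Not at hcon; nlinarith
    obtain ⟨g, rfl⟩ := Int.eq_ofNat_of_zero_le (show 0 ≤ g by omega)
    obtain ⟨M, rfl⟩ := Int.eq_ofNat_of_zero_le hM
    obtain ⟨N, rfl⟩ := Int.eq_ofNat_of_zero_le hN
    obtain ⟨N', rfl⟩ := Int.eq_ofNat_of_zero_le hN'
    refine ⟨g, M, N, N', by exact_mod_cast e0, by exact_mod_cast e1, by exact_mod_cast e2, ?_⟩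
    clear e0 e1 e2
    rcases h with ⟨h1, h2, h | h⟩ | ⟨h1, h2, h⟩ | ⟨h1, h2, h⟩ | ⟨h1, h2⟩ | ⟨h1, h2⟩ |
      ⟨h0, h1, h2⟩ | ⟨h0, h1, h2⟩
    · left; omega
    · left; omega
    · right; left; omega
    · right; right; left; omega
    · right; right; right; left; omega
    · right; right; right; right; left; omega
    · right; right; right; right; right; left; omega
    · right; right; right; right; right; right; omega
  · rintro ⟨g, M, N, N', e0, e1, e2, h⟩
    have hg : 1 ≤ g := by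
      rcases Nat.eq_zero_or_pos g with h0 | h0
      · rw [h0] at e0; omega
      · exact h0
    refine ⟨g, M, N, N', by exact_mod_cast hg, by exact_mod_cast e0, by exact_mod_cast e1,
      by exact_mod_cast e2, ?_⟩
    clear e0 e1 e2
    rcases h with ⟨h1, h2, h | h⟩ | ⟨h1, h2, h⟩ | ⟨h1, h2, h⟩ | ⟨h1, h2⟩ | ⟨h1, h2⟩ |
      ⟨h0, h1, h2⟩ | ⟨h0, h1, h2⟩
    · left; omega
    · left; omega
    · right; left; omega
    · right; right; left; omega
    · right; right; right; left; omega
    · right; right; right; right; left; omega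
    · right; right; right; right; right; left; omega
    · right; right; right; right; right; right; omega

theorem quad_iff_nat (a b c d : ℕ) :
    Quad ((a : ℤ) + 1) ((b : ℤ) + 1) ((c : ℤ) + 1) ((d : ℤ) + 1) ↔
    ∃ g M N₁ N₂ N₃ : ℕ, a + 1 = g * M ∧ b + 1 = g * N₁ ∧ c + 1 = g * N₂ ∧ d + 1 = g * N₃ ∧
      Special3 M N₁ N₂ N₃ := by
  constructor
  · rintro ⟨g, j, hg, hj, e0, e2, h⟩
    obtain ⟨g, rfl⟩ := Int.eq_ofNat_of_zero_le (show 0 ≤ g by omega)
    obtain ⟨j, rfl⟩ := Int.eq_ofNat_of_zero_le (show 0 ≤ j by omega)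
    obtain ⟨i, rfl⟩ : ∃ i, j = i + 1 := ⟨j - 1, by omega⟩
    rcases h with ⟨e1, e3⟩ | ⟨e1, e3⟩
    · refine ⟨g, 2 * (i + 1), 2 * i, 1, 2 * (i + 1) + 1, ?_, ?_, ?_, ?_, ?_⟩
      · zify; rw [e0]; push_cast; ring
      · zify; rw [e1]; push_cast; ring
      · zify; rw [e2]; ring
      · zify; rw [e3]; push_cast; ring
      · unfold Special3; omega
    · refine ⟨g, 2 * (i + 1), 2 * (i + 1) + 1, 1, 2 * i, ?_, ?_, ?_, ?_, ?_⟩
      · zify; rw [e0]; push_cast; ring
      · zify; rw [e1]; push_cast; ring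
      · zify; rw [e2]; ring
      · zify; rw [e3]; push_cast; ring
      · unfold Special3; omega
  · rintro ⟨g, M, N₁, N₂, N₃, e0, e1, e2, e3, h1, h2, h3, h⟩
    have hg : 1 ≤ g := by
      rcases Nat.eq_zero_or_pos g with h0 | h0
      · rw [h0] at e0; omega
      · exact h0
    obtain ⟨i, rfl⟩ : ∃ i, M = 2 * (i + 1) := ⟨M / 2 - 1, by omega⟩
    have hi : 1 ≤ i := by omega
    subst h3
    rcases h with ⟨h, h'⟩ | ⟨h, h'⟩
    · have hN : N₁ = 2 * i := by omega
      subst hN h'
      refine ⟨g, (i : ℤ) + 1, by exact_mod_cast hg, by omega, ?_, ?_, Or.inl ⟨?_, ?_⟩⟩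
      · zify at e0; rw [e0]
      · zify at e2; rw [e2]; ring
      · zify at e1; rw [e1]; ring
      · zify at e3; rw [e3]
    · have hN : N₃ = 2 * i := by omega
      subst hN h
      refine ⟨g, (i : ℤ) + 1, by exact_mod_cast hg, by omega, ?_, ?_, Or.inr ⟨?_, ?_⟩⟩
      · zify at e0; rw [e0]
      · zify at e2; rw [e2]; ring
      · zify at e1; rw [e1]
      · zify at e3; rw [e3]; ring

theorem map1 {l : List ℕ} {x : ℕ} (h : l.map (· + 1) = [x]) : ∃ a, l = [a] ∧ a + 1 = x := by
  cases l with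
  | nil => simp at h
  | cons a l =>
    cases l with
    | nil => exact ⟨a, rfl, by simpa using h⟩
    | cons b l => simp at h

theorem map2 {l : List ℕ} {x y : ℕ} (h : l.map (· + 1) = [x, y]) :
    ∃ a b, l = [a, b] ∧ a + 1 = x ∧ b + 1 = y := by
  cases l with
  | nil => simp at h
  | cons a l =>
    rw [List.map_cons, List.cons.injEq] at h
    obtain ⟨b, rfl, hb⟩ := map1 h.2
    exact ⟨a, b, rfl, h.1, hb⟩

theorem map3 {l : List ℕ} {x y z : ℕ} (h : l.map (· + 1) = [x, y, z]) :
    ∃ a b c, l = [a, b, c] ∧ a + 1 = x ∧ b + 1 = y ∧ c + 1 = z := by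
  cases l with
  | nil => simp at h
  | cons a l =>
    rw [List.map_cons, List.cons.injEq] at h
    obtain ⟨b, c, rfl, hb, hc⟩ := map2 h.2
    exact ⟨a, b, c, rfl, h.1, hb, hc⟩

theorem listed_unavL {m n : List ℕ} (h : Listed m n) : UnavL m n := by
  rcases h with rfl | ⟨g, M, hm, h⟩
  · intro P
    by_cases hP : ∃ x, P x
    · exact Or.inl hP
    · right
      refine ⟨0, ?_⟩
      have key : ∀ (l : List ℕ) (x : ℤ), Occ (fun z => ¬ P z) x l := by
        intro l
        induction l with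
        | nil => intro x h; exact hP ⟨x, h⟩
        | cons d ds ih => intro x; exact ⟨fun h => hP ⟨x, h⟩, ih _⟩
      exact key n 0
  · obtain ⟨a, rfl, ha⟩ := map1 hm
    rcases h with ⟨N, hn, h⟩ | ⟨N₁, N₂, hn, h⟩ | ⟨N₁, N₂, N₃, hn, h⟩
    · obtain ⟨b, rfl, hb⟩ := map1 hn
      exact unavL_11.mpr ⟨g, M, N, ha, hb, h⟩
    · obtain ⟨b, c, rfl, hb, hc⟩ := map2 hn
      exact unavL_12.mpr ((tri_iff_nat a b c).mpr ⟨g, M, N₁, N₂, ha, hb, hc, h⟩)
    · obtain ⟨b, c, d, rfl, hb, hc, hd⟩ := map3 hn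
      exact unavL_13.mpr ((quad_iff_nat a b c d).mpr ⟨g, M, N₁, N₂, N₃, ha, hb, hc, hd, h⟩)

theorem listed_one {a b : ℕ} {l : List ℕ} (h : UnavL [a] (b :: l)) : Listed [a] (b :: l) := by
  match l, h with
  | [], h =>
    obtain ⟨g, M, N, e0, e1, h⟩ := unavL_11.mp h
    exact Or.inr ⟨g, M, by simp [e0], Or.inl ⟨N, by simp [e1], h⟩⟩
  | [c], h =>
    obtain ⟨g, M, N₁, N₂, e0, e1, e2, h⟩ := (tri_iff_nat a b c).mp (unavL_12.mp h)
    exact Or.inr ⟨g, M, by simp [e0], Or.inr (Or.inl ⟨N₁, N₂, by simp [e1, e2], h⟩)⟩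
  | [c, d], h =>
    obtain ⟨g, M, N₁, N₂, N₃, e0, e1, e2, e3, h⟩ := (quad_iff_nat a b c d).mp (unavL_13.mp h)
    exact Or.inr ⟨g, M, by simp [e0], Or.inr (Or.inr ⟨N₁, N₂, N₃, by simp [e1, e2, e3], h⟩)⟩
  | c :: d :: e :: l, h => exact absurd h not_unavL_14

/-- **Classification of the two-element unavoidable sets.** -/
theorem result (m n : List ℕ) : Unavoidable (X m n) ↔ Listed m n ∨ Listed n m := by
  rw [unavoidable_iff]
  constructor
  · intro h
    match m, n, h with
    | [], _, _ => exact Or.inl (Or.inl rfl)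
    | _, [], _ => exact Or.inr (Or.inl rfl)
    | [a], b :: l, h => exact Or.inl (listed_one h)
    | a :: l, [b], h => exact Or.inr (listed_one h.symm)
    | a :: a' :: l, b :: b' :: l', h => exact absurd h not_unavL_22
  · rintro (h | h)
    · exact listed_unavL h
    · exact (listed_unavL h).symm

end Pool.Agent.Results.MP_24bad9_co.TwoElementUnavoidable
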